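import Pool.Agent.H903HT.Stmts2

/-! Task S6 (ONB2): an orthonormal basis adapted to two commuting decompositions. -/

set_option autoImplicit false

open MeasureTheory Filter Topology Set

namespace Pool.Agent.H903HT

theorem taskONB2 : TaskONB2 := by
  intro H _ _ _ J E W hE hW hEo hWo htot hEW
  let V : ℝ × J → Submodule ℂ H := fun p => E p.1 ⊓ W p.2
  have hVcl : ∀ p, IsClosed (V p : Set H) := fun p => (hE p.1).inter (hW p.2)
  have hcomp : ∀ p, CompleteSpace (V p) := fun p => (hVcl p).completeSpace_coe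
  choose w b hb using fun p => exists_hilbertBasis ℂ (V p)
  have hfam : OrthogonalFamily ℂ (fun p => V p) (fun p => (V p).subtypeₗᵢ) := by
    intro p p' hp x y
    by_cases hl : p.1 = p'.1
    · have hj : p.2 ≠ p'.2 := fun h => hp (Prod.ext hl h)
      exact hWo _ _ hj _ x.2.2 _ y.2.2
    · exact hEo _ _ hl _ x.2.1 _ y.2.1
  have hON : Orthonormal ℂ (fun a : Σ p : ℝ × J, w p => (V a.1).subtypeₗᵢ (b a.1 a.2)) :=
    hfam.orthonormal_sigma_orthonormal (fun p => (b p).orthonormal)
  have hbot : (Submodule.span ℂ (Set.range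
      (fun a : Σ p : ℝ × J, w p => (V a.1).subtypeₗᵢ (b a.1 a.2))))ᗮ = ⊥ := by
    rw [Submodule.eq_bot_iff]
    intro x hx
    have hx1 : ∀ a : Σ p : ℝ × J, w p, inner ℂ x ((b a.1 a.2 : V a.1) : H) = 0 := by
      intro a
      have h := (Submodule.mem_orthogonal' _ x).1 hx _ (Submodule.subset_span ⟨a, rfl⟩)
      exact h
    have hx2 : ∀ p, ∀ y ∈ V p, inner ℂ x y = 0 := by
      intro p y hy
      have hle : (Submodule.span ℂ (Set.range (b p))).topologicalClosure ≤
          LinearMap.ker ((innerSL ℂ x).comp (V p).subtypeL).toLinearMap := by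
        apply Submodule.topologicalClosure_minimal
        · rw [Submodule.span_le]
          rintro _ ⟨i, rfl⟩
          exact hx1 ⟨p, i⟩
        · exact ((innerSL ℂ x).comp (V p).subtypeL).isClosed_ker
      rw [(b p).dense_span] at hle
      exact hle (Submodule.mem_top (x := (⟨y, hy⟩ : V p)))
    have hx3 : ∀ l, ∀ y ∈ E l, inner ℂ x y = 0 := by
      intro l y hy
      have hle : (⨆ j, E l ⊓ W j).topologicalClosure ≤
          LinearMap.ker (innerSL ℂ x).toLinearMap := by
        apply Submodule.topologicalClosure_minimal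
        · refine iSup_le fun j z hz => ?_
          exact hx2 (l, j) z hz
        · exact (innerSL ℂ x).isClosed_ker
      exact hle (hEW l hy)
    have hle : (⨆ l, E l).topologicalClosure ≤ LinearMap.ker (innerSL ℂ x).toLinearMap := by
      apply Submodule.topologicalClosure_minimal
      · exact iSup_le fun l z hz => hx3 l z hz
      · exact (innerSL ℂ x).isClosed_ker
    rw [htot] at hle
    have hxx : inner ℂ x x = 0 := hle (Submodule.mem_top (x := x))
    exact inner_self_eq_zero.1 hxx
  refine ⟨Σ p : ℝ × J, w p, HilbertBasis.mkOfOrthogonalEqBot hON hbot, fun a => a.1.1,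
    fun a => a.1.2, fun a => ?_⟩
  rw [HilbertBasis.coe_mkOfOrthogonalEqBot]
  exact ⟨(b a.1 a.2).2.1, (b a.1 a.2).2.2⟩

end Pool.Agent.H903HT
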